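import Pool.Agent.H95.CMC.Targets
import Pool.Agent.H21.CM4.CINE

/-!
# Row F_INM of the board `cm4_modules`: a lattice and a form determine the field
-/

set_option autoImplicit false

open MeasureTheory Set Filter NumberField
open scoped Real nonZeroDivisors

namespace Pool.Agent.H21.CMC

open Pool.Agent.H65.CM4 Pool.Agent.H65.CMC Pool.Agent.H95.CMC
open Pool.Agent.H95.CM (lin lin_add lin_smul T_NTP)
open Pool.Agent.H21.CM4

theorem pf_INM (hNTP : T_NTP) : T_INM := by
  intro k K K' _ _ _ _ _ _ _ _ _ _ _ _ _ b b' Λ Λ' α β α' β' μ μ' M Q hb hb' hO hO'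
  have h2 : Module.finrank k K = 2 := Algebra.IsQuadraticExtension.finrank_eq_two k K
  have h2' : Module.finrank k K' = 2 := Algebra.IsQuadraticExtension.finrank_eq_two k K'
  have : FiniteDimensional k K := Module.finite_of_finrank_pos (by rw [h2]; norm_num)
  have : FiniteDimensional k K' := Module.finite_of_finrank_pos (by rw [h2']; norm_num)
  have hp : Module.finrank k (k × k) = 2 := by
    rw [Module.finrank_prod, Module.finrank_self]
  let f := LinearMap.linearEquivOfInjective (lK (k := k) α β) (lK_inj α β hO.inj)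
    (by rw [hp, h2])
  let f' := LinearMap.linearEquivOfInjective (lK (k := k) α' β') (lK_inj α' β' hO'.inj)
    (by rw [hp, h2'])
  have hf : ∀ w, f w = lK α β w := fun w => rfl
  have hf' : ∀ w, f' w = lK α' β' w := fun w => rfl
  obtain ⟨v⟩ : Nonempty (Pl k) := inferInstance
  have hμ : μ ≠ 0 := by
    intro h
    have h1 := hO.pos v
    rw [h, map_zero] at h1
    exact lt_irrefl _ h1
  obtain ⟨e, t, ht, he⟩ := sim_iso h2 h2' (f.symm.trans f') (μ' / μ) (by
    intro z
    obtain ⟨w, rfl⟩ := f.surjective z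
    obtain ⟨d, u, hd, hu⟩ := clear w
    have hd' : (d : k) ≠ 0 := by
      rw [Ne, RingOfIntegers.coe_eq_zero_iff]; exact hd
    have e1 := lK_norm α β μ Q hO.nrm d w u hu
    have e2 := lK_norm α' β' μ' Q hO'.nrm d w u hu
    have e3 : (f.symm.trans f') (f w) = lK α' β' w := by
      rw [LinearEquiv.trans_apply, LinearEquiv.symm_apply_apply, hf']
    rw [e3, hf]
    apply mul_left_cancel₀ (pow_ne_zero 2 hd')
    rw [e2]
    have e4 : (d : k) ^ 2 * (μ' / μ * (Algebra.norm k) ((lK α β) w)) =
        μ' / μ * ((d : k) ^ 2 * (Algebra.norm k) ((lK α β) w)) := by ring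
    rw [e4, e1, ← mul_assoc, div_mul_cancel₀ _ hμ])
  refine ⟨e, t, ht, fun u => ?_⟩
  rw [← lK_lin, ← lK_lin, ← hf, ← hf', ← he, LinearEquiv.trans_apply,
    LinearEquiv.symm_apply_apply]

end Pool.Agent.H21.CMC
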