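import Pool.Agent.H95.CMC.Targets
import Pool.Agent.H21.CM4.CLF2

/-!
# Row F_LF2 of the board `cm4_modules`: the twisted `L`-function in terms of the forms, `Re s > 0`
-/

set_option autoImplicit false

open MeasureTheory Set Filter NumberField
open scoped Real nonZeroDivisors

namespace Pool.Agent.H21.CMC

open Pool.Agent.H65.CM4 Pool.Agent.H65.CMC Pool.Agent.H95.CMC
open Pool.Agent.H95.CM (lin lin_add lin_smul T_MEM T_IXL T_QNV un)

theorem gg_diff (m : ℤ) (s : ℂ) (hs : 0 < s.re) : DifferentiableAt ℂ (gg m) s := by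
  have hm : (0 : ℝ) ≤ ((|m| : ℤ) : ℝ) := by exact_mod_cast abs_nonneg m
  have h1 : DifferentiableAt ℂ (fun s : ℂ => Complex.Gamma (s + ((|m| : ℤ) : ℂ))) s := by
    have h0 : DifferentiableAt ℂ Complex.Gamma (s + ((|m| : ℤ) : ℂ)) := by
      apply Complex.differentiableAt_Gamma
      intro j hj
      have h2 := congrArg Complex.re hj
      have h3 := Nat.cast_nonneg (α := ℝ) j
      rw [Complex.add_re, Complex.intCast_re, Complex.neg_re, Complex.natCast_re] at h2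
      linarith
    exact h0.comp s (differentiableAt_id.add_const _)
  have h2 : (2 * (π : ℂ)) ≠ 0 := by
    have := Real.pi_pos
    norm_num
  have h3 : DifferentiableAt ℂ (fun s : ℂ => (2 * (π : ℂ)) ^ (-s)) s :=
    (differentiableAt_id.neg).const_cpow (Or.inl h2)
  unfold gg
  exact ((differentiableAt_id.mul (differentiableAt_id.sub_const 1)).mul h1).mul h3

theorem GM_diff {k : Type} [Field k] [NumberField k] (m : Pl k → ℤ) (s : ℂ) (hs : 0 < s.re) :
    DifferentiableAt ℂ (GM m) s := by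
  have h : GM m = fun s => ∏ v : Pl k, gg (m v) s := rfl
  rw [h]
  exact DifferentiableAt.fun_finsetProd fun v _ => gg_diff (m v) s hs

theorem Dl_pos {k K : Type} [Field k] [NumberField k] [Field K] [NumberField K] [Algebra k K]
    (f : Ideal (𝓞 k)) (hf : f ≠ ⊥) : 0 < Dl K f := by
  unfold Dl dk nm
  have h1 : (discr K : ℝ) ≠ 0 := by exact_mod_cast discr_ne_zero K
  have h2 : 0 < ((discr k).natAbs : ℝ) := by
    exact_mod_cast Int.natAbs_pos.2 (discr_ne_zero k)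
  have h3 : 0 < (Ideal.absNorm f : ℝ) := by
    exact_mod_cast Nat.pos_of_ne_zero fun h => hf (Ideal.absNorm_eq_zero_iff.1 h)
  positivity

open Classical in
theorem pf_LF2 (hLF1 : T_LF1) (hEZA : ∀ (k : Type) [Field k] [NumberField k] [IsTotallyReal k],
    Pool.Agent.H89.CMC.T_EZAm k) (hMEM : T_MEM) (hIXL : T_IXL) (hQNV : T_QNV) (hCVL : T_CVL)
    (hLNB : T_LNB) (hLNI : T_LNI) : T_LF2 := by
  intro k K _ _ _ _ _ _ _ _ Φ f m ψ F b B y R hΦ hψ hF hb 𝔞 ha hasq hab s hs0 hs2 hs1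
  have hD : (Dl K f : ℂ) ≠ 0 := by
    have h := Dl_pos (K := K) f hψ.fne
    exact_mod_cast h.ne'
  have habs : Ideal.absNorm 𝔞 ≠ 0 := fun h => ha (Ideal.absNorm_eq_zero_iff.1 h)
  set A : ℂ → ℂ := fun s => lc k ψ 𝔞 * (GM m s * (Dl K f : ℂ) ^ (s / 2) * F s) with hA
  set W : ℂ → ℂ := fun s => (un k K : ℂ)⁻¹ * ∑ c, (ψ (R.I c))⁻¹ *
    ∑ Λ ∈ Ln f (R.I c : Ideal (𝓞 K)), rh Φ m ψ f (R.I c) Λ * ty Φ m (R.α Λ) *
      ∑ L ∈ (Ls 𝔞).filter (fun L => Dv 𝔞 L (R.Q Λ)),
        Zm s (sm Φ (R.α Λ) (R.β Λ) m) (R.M Λ ⊓ L) (zx (R.Q Λ)) (zy (R.Q Λ)) with hW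
  change A s = W s
  have hop : IsOpen {s : ℂ | (0 < s.re ∧ s.re < 2) ∧ s ≠ 1} := by
    refine IsOpen.inter (IsOpen.inter ?_ ?_) ?_
    · exact isOpen_lt continuous_const Complex.continuous_re
    · exact isOpen_lt Complex.continuous_re continuous_const
    · exact isOpen_compl_singleton
  have hAd : DifferentiableOn ℂ A {s : ℂ | (0 < s.re ∧ s.re < 2) ∧ s ≠ 1} := by
    apply DifferentiableOn.const_mul
    apply DifferentiableOn.mul
    · apply DifferentiableOn.mul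
      · intro z hz
        exact (GM_diff m z hz.1.1).differentiableWithinAt
      · intro z hz
        exact ((differentiableAt_id.div_const 2).const_cpow (Or.inl hD)).differentiableWithinAt
    · exact hF.1.mono fun z hz => hz.2
  have hWd : DifferentiableOn ℂ W {s : ℂ | (0 < s.re ∧ s.re < 2) ∧ s ≠ 1} := by
    apply DifferentiableOn.const_mul
    apply DifferentiableOn.fun_sum
    intro c _
    apply DifferentiableOn.const_mul
    apply DifferentiableOn.fun_sum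
    intro Λ hΛ
    apply DifferentiableOn.const_mul
    apply DifferentiableOn.fun_sum
    intro L hL
    have hol := R.ol c Λ hΛ
    have hix := hIXL k b (R.M Λ) 𝔞 hb hol.bM ha hab
    have hixs : ixs Λ ≠ 0 := by
      obtain ⟨l, hl, hlp, rfl⟩ := ((hLNB k K f (R.I c) hψ.fne (R.pr c)).1 Λ).1 hΛ
      rw [(hLNI k K f (R.I c) l hψ.fne (R.pr c) hl hlp).1]
      refine mul_ne_zero ?_ fun h => hψ.fne (Ideal.absNorm_eq_zero_iff.1 h)
      exact fun h => (R.pr c).1 (Ideal.absNorm_eq_zero_iff.1 h)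
    have hpos := (hCVL k K b Λ (R.α Λ) (R.β Λ) (R.μ Λ) (R.M Λ) (R.Q Λ) hb hixs hol).1
    refine ((hEZA k (sm Φ (R.α Λ) (R.β Λ) m) (R.M Λ ⊓ L) (zx (R.Q Λ)) (zy (R.Q Λ)) ?_
      (hQNV k (R.Q Λ) 0 hpos).1).1).mono fun z hz => hz.1
    rw [hix.2.2.1 L (Finset.mem_filter.1 hL).1]
    exact mul_ne_zero hix.1 habs
  have hA' := hAd.analyticOnNhd hop
  have hW' := hWd.analyticOnNhd hop
  have h32 : ((⟨3 / 2, 0⟩ : ℂ)) ∈ {s : ℂ | (0 < s.re ∧ s.re < 2) ∧ s ≠ 1} := by
    refine ⟨⟨?_, ?_⟩, ?_⟩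
    · norm_num
    · norm_num
    · intro h
      have := congrArg Complex.re h
      norm_num at this
  have he : A =ᶠ[nhds (⟨3 / 2, 0⟩ : ℂ)] W := by
    have ho : IsOpen {s : ℂ | 1 < s.re ∧ s.re < 2} :=
      (isOpen_lt continuous_const Complex.continuous_re).inter
        (isOpen_lt Complex.continuous_re continuous_const)
    have hm : (⟨3 / 2, 0⟩ : ℂ) ∈ {s : ℂ | 1 < s.re ∧ s.re < 2} := by
      constructor
      · norm_num
      · norm_num
    filter_upwards [ho.mem_nhds hm] with z hz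
    exact hLF1 k K Φ f m ψ b B y R hΦ hψ hb 𝔞 ha hasq hab z hz.1 hz.2 (F z) (hF.2 z hz.1)
  exact hA'.eqOn_of_preconnected_of_eventuallyEq hW' Pool.Agent.H21.CM4.strip_pre h32 he
    ⟨⟨hs0, hs2⟩, hs1⟩

end Pool.Agent.H21.CMC
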