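import Pool.Agent.H95.CMC.Targets
import Pool.Agent.H21.CM4.CLF1
import Pool.Agent.H21.CMC.FLF2

/-!
# Row F_LF1 of the board `cm4_modules`: the twisted `L`-function in terms of the forms, `Re s > 1`
-/

set_option autoImplicit false

open MeasureTheory Set Filter NumberField
open scoped Real nonZeroDivisors

namespace Pool.Agent.H21.CMC

open Pool.Agent.H65.CM4 Pool.Agent.H65.CMC Pool.Agent.H95.CMC
open Pool.Agent.H95.CM (lin lin_add lin_smul T_MEM T_IXL T_QNV T_UNI un Nr mem_Nr)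

section Aux

variable {k K : Type} [Field k] [NumberField k] [IsTotallyReal k] [Field K] [NumberField K]
  [Algebra k K]

theorem GM_sm [IsTotallyComplex K] [Algebra.IsQuadraticExtension k K] (Φ : Pl k → K →+* ℂ)
    (α β : K) (m : Pl k → ℤ) (s : ℂ) : GM (sm Φ α β m) s = GM m s := by
  unfold GM
  refine Finset.prod_congr rfl fun v _ => ?_
  unfold sm gg
  split_ifs
  · rfl
  · rw [abs_neg]

theorem smul_coe (c : 𝓞 k) (x : 𝓞 K) : ((c • x : 𝓞 K) : K) = algebraMap k K (c : k) * (x : K) := by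
  rw [Algebra.smul_def]
  push_cast
  rfl

theorem ty_unit (Φ : Pl k → K →+* ℂ) (hΦ : Emb k Φ) (m : Pl k → ℤ) (ε : (𝓞 k)ˣ) :
    ty Φ m (algebraMap k K ((ε : 𝓞 k) : k)) = 1 := by
  unfold ty
  refine Finset.prod_eq_one fun v _ => ?_
  rw [hΦ v, Complex.conj_ofReal, div_self, one_zpow]
  have h1 : ((ε : 𝓞 k) : k) ≠ 0 := by
    rw [Ne, RingOfIntegers.coe_eq_zero_iff]
    exact ε.ne_zero
  have h2 : rv v ((ε : 𝓞 k) : k) ≠ 0 := (map_ne_zero (rv v)).2 h1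
  exact_mod_cast h2

omit [IsTotallyReal k] in
theorem span_unit (ε : (𝓞 k)ˣ) (x : 𝓞 K) :
    Ideal.span {((ε : 𝓞 k) • x : 𝓞 K)} = Ideal.span {x} := by
  rw [Algebra.smul_def]
  exact Ideal.span_singleton_mul_left_unit (ε.isUnit.map (algebraMap (𝓞 k) (𝓞 K))) x

omit [IsTotallyReal k] in
theorem sqrt_Dl (f : Ideal (𝓞 k)) : Real.sqrt (Dl K f) =
    Real.sqrt |(discr K : ℝ)| * nm f / dk k := by
  unfold Dl
  have h1 : (0 : ℝ) ≤ nm f := by unfold nm; positivity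
  have h2 : (0 : ℝ) ≤ dk k := by positivity
  rw [Real.sqrt_div (by positivity), Real.sqrt_mul (abs_nonneg _), Real.sqrt_sq h1,
    Real.sqrt_sq h2]

omit [IsTotallyReal k] in
theorem lc_eq (ψ : Ideal (𝓞 K) → ℂ) (𝔞 : Ideal (𝓞 k)) :
    lc k ψ 𝔞 = ∑ J ∈ Nr k K 𝔞, ψ (J : Ideal (𝓞 K)) := by
  classical
  have h1 : {J : Ideal (𝓞 K) | J ≠ ⊥ ∧ Ideal.relNorm (𝓞 k) J = 𝔞} =
      (((Nr k K 𝔞).image (fun J : (Ideal (𝓞 K))⁰ => (J : Ideal (𝓞 K))) :
        Finset (Ideal (𝓞 K))) :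
        Set (Ideal (𝓞 K))) := by
    ext J
    rw [Finset.mem_coe, Finset.mem_image]
    constructor
    · rintro ⟨hJ, hJ'⟩
      obtain ⟨J', hJJ⟩ : ∃ J' : (Ideal (𝓞 K))⁰, (J' : Ideal (𝓞 K)) = J :=
        ⟨⟨J, mem_nonZeroDivisors_of_ne_zero hJ⟩, rfl⟩
      refine ⟨J', ?_, hJJ⟩
      rw [mem_Nr, hJJ]
      exact hJ'
    · rintro ⟨J', hJ', rfl⟩
      rw [mem_Nr] at hJ'
      exact ⟨nonZeroDivisors.coe_ne_zero J', hJ'⟩
  unfold lc
  rw [h1, finsum_mem_coe_finset, Finset.sum_image]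
  intro J _ J' _ h
  exact Subtype.ext h

omit [NumberField K] in
theorem mulI_mem {x : 𝓞 K} {J I : (Ideal (𝓞 K))⁰}
    (h : x ∈ ((J * I : (Ideal (𝓞 K))⁰) : Ideal (𝓞 K))) : x ∈ (I : Ideal (𝓞 K)) := by
  have h1 : x ∈ (J : Ideal (𝓞 K)) * (I : Ideal (𝓞 K)) := h
  exact Ideal.mul_le_right h1

end Aux

open Classical in
theorem pf_LF1 (hEZA : ∀ (k : Type) [Field k] [NumberField k] [IsTotallyReal k],
    Pool.Agent.H89.CMC.T_EZAm k) (hCVV : T_CVV) (hANG : T_ANG) (hQNL : T_QNL) (hORB : T_ORB)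
    (hTWL : T_TWL) (hLNB : T_LNB) (hLNI : T_LNI) (hRHO : T_RHO) (hMEM : T_MEM) (hIXL : T_IXL)
    (hQNV : T_QNV) (hCVL : T_CVL) (hUNI : T_UNI) : T_LF1 := by
  intro k K _ _ _ _ _ _ _ _ Φ f m ψ b B y R hΦ hψ hb 𝔞 ha hasq hab s hs1 hs2 a hsum
  obtain ⟨D, hDd⟩ : ∃ D, D = Dl K f := ⟨_, rfl⟩
  have hD : 0 < D := by rw [hDd]; exact Dl_pos (K := K) f hψ.fne
  rw [← hDd]
  have hun := hUNI k K
  have hunC : (un k K : ℂ) ≠ 0 := by exact_mod_cast hun.ne'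
  have habs : Ideal.absNorm 𝔞 ≠ 0 := fun h => ha (Ideal.absNorm_eq_zero_iff.1 h)
  have ha0 : 0 < nm 𝔞 := by unfold nm; exact_mod_cast Nat.pos_of_ne_zero habs
  have hf0 : 0 < nm f := by
    unfold nm
    exact_mod_cast Nat.pos_of_ne_zero fun h => hψ.fne (Ideal.absNorm_eq_zero_iff.1 h)
  have hI0 : ∀ c, 0 < nm (R.I c : Ideal (𝓞 K)) := by
    intro c
    unfold nm
    exact_mod_cast Nat.pos_of_ne_zero fun h => (R.pr c).1 (Ideal.absNorm_eq_zero_iff.1 h)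
  have hdk : (0 : ℝ) < dk k := by
    unfold dk
    exact_mod_cast Int.natAbs_pos.2 (discr_ne_zero k)
  have hdK : 0 < Real.sqrt |(discr K : ℝ)| := by
    have h1 : (discr K : ℝ) ≠ 0 := by exact_mod_cast discr_ne_zero K
    exact Real.sqrt_pos.2 (abs_pos.2 h1)
  have hrho := fun c => hRHO k K Φ f m ψ (R.I c) hΦ hψ (R.pr c)
  have htym := (hrho 1).2.1
  have htyn := (hrho 1).1
  have hx0 : ∀ x : 𝓞 K, x ≠ 0 → 0 < nm (Ideal.span {x}) := by
    intro x hx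
    unfold nm
    have h1 : Ideal.absNorm (Ideal.span {x}) ≠ 0 := by
      intro h
      have h2 := Ideal.absNorm_eq_zero_iff.1 h
      rw [Ideal.span_singleton_eq_bot] at h2
      exact hx h2
    exact_mod_cast Nat.pos_of_ne_zero h1
  -- the function on the integers of `K`
  obtain ⟨G, hG⟩ : ∃ G : ClassGroup (𝓞 K) → 𝓞 K → ℂ, ∀ c x, G c x = (D : ℂ) ^ (s / 2) *
      (ty Φ m (x : K) * ((nm (Ideal.span {x}) / (nm (R.I c : Ideal (𝓞 K)) * nm 𝔞) : ℝ) : ℂ) ^ (-s))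
      := ⟨fun c x => _, fun c x => rfl⟩
  -- step 1: one line and one lattice
  have step1 : ∀ (c : ClassGroup (𝓞 K)) (Λ : Sl k K) (L : La k), ∃ a₁ : ℂ,
      Λ ∈ Ln f (R.I c : Ideal (𝓞 K)) → L ∈ (Ls 𝔞).filter (fun L => Dv 𝔞 L (R.Q Λ)) →
      ty Φ m (R.α Λ) * Zm s (sm Φ (R.α Λ) (R.β Λ) m) (R.M Λ ⊓ L) (zx (R.Q Λ)) (zy (R.Q Λ)) =
        GM m s * a₁ ∧
      HasSum (fun x : 𝓞 K => if x ∈ us (R.α Λ) (R.β Λ) (R.M Λ ⊓ L) ∧ x ∈ FK k K then G c x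
        else 0) a₁ := by
    intro c Λ L
    by_cases hΛ : Λ ∈ Ln f (R.I c : Ideal (𝓞 K))
    swap
    · exact ⟨0, fun h => absurd h hΛ⟩
    by_cases hL : L ∈ (Ls 𝔞).filter (fun L => Dv 𝔞 L (R.Q Λ))
    swap
    · exact ⟨0, fun _ h => absurd h hL⟩
    have hol := R.ol c Λ hΛ
    have hix := hIXL k b (R.M Λ) 𝔞 hb hol.bM ha hab
    have hixs0 : ixs Λ = Ideal.absNorm (R.I c : Ideal (𝓞 K)) * Ideal.absNorm f := by
      obtain ⟨l, hl, hlp, rfl⟩ := ((hLNB k K f (R.I c) hψ.fne (R.pr c)).1 Λ).1 hΛ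
      exact (hLNI k K f (R.I c) l hψ.fne (R.pr c) hl hlp).1
    have hixs : ixs Λ ≠ 0 := by
      rw [hixs0]
      refine mul_ne_zero ?_ fun h => hψ.fne (Ideal.absNorm_eq_zero_iff.1 h)
      exact fun h => (R.pr c).1 (Ideal.absNorm_eq_zero_iff.1 h)
    have hpos := (hCVL k K b Λ (R.α Λ) (R.β Λ) (R.μ Λ) (R.M Λ) (R.Q Λ) hb hixs hol).1
    have hixL : ix (R.M Λ ⊓ L) = ix (R.M Λ) * Ideal.absNorm 𝔞 :=
      hix.2.2.1 L (Finset.mem_filter.1 hL).1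
    obtain ⟨-, hE⟩ := hEZA k (sm Φ (R.α Λ) (R.β Λ) m) (R.M Λ ⊓ L) (zx (R.Q Λ)) (zy (R.Q Λ))
      (by rw [hixL]; exact mul_ne_zero hix.1 habs) (hQNV k (R.Q Λ) 0 hpos).1
    obtain ⟨hE1, hE2⟩ := hE s hs1 hs2
    have hE3 := hE1.hasSum.mul_left (ty Φ m (R.α Λ))
    rw [GM_sm] at hE2
    refine ⟨ty Φ m (R.α Λ) * ∑' u : V2 k, (if u ∈ R.M Λ ⊓ L ∧ u ∈ Fo k then
      an (sm Φ (R.α Λ) (R.β Λ) m) (fun v => (zx (R.Q Λ) v : ℂ)) (fun v => (zy (R.Q Λ) v : ℂ)) u *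
          (qn (fun v => (zx (R.Q Λ) v : ℂ)) (fun v => (zy (R.Q Λ) v : ℂ)) u /
            (ix (R.M Λ ⊓ L) : ℂ)) ^ (-s) else 0), fun _ _ => ⟨?_, ?_⟩⟩
    · rw [hE2]
      ring
    · refine hORB k K (R.α Λ) (R.β Λ) (R.M Λ ⊓ L) (G c) (fun u => ty Φ m (R.α Λ) *
        (an (sm Φ (R.α Λ) (R.β Λ) m) (fun v => (zx (R.Q Λ) v : ℂ)) (fun v => (zy (R.Q Λ) v : ℂ)) u *
          (qn (fun v => (zx (R.Q Λ) v : ℂ)) (fun v => (zy (R.Q Λ) v : ℂ)) u /
            (ix (R.M Λ ⊓ L) : ℂ)) ^ (-s))) _ hol.inj ?_ ?_ ?_ (hE3.congr_fun ?_)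
      · intro u hu
        have hu' : u ∈ R.M Λ := hu.1
        rw [hol.lat] at hu'
        obtain ⟨x, -, hx⟩ := hu'
        exact ⟨x, hx⟩
      · intro ε x
        rw [hG, hG, span_unit, smul_coe, htym, ty_unit Φ hΦ, one_mul]
      · intro u hu hu0 x hxu
        have h1 := hANG k K Φ b Λ (R.α Λ) (R.β Λ) (R.μ Λ) (R.M Λ) (R.Q Λ) hΦ hol hpos m u hu0
        have h2 := (hQNL k K b Λ (R.α Λ) (R.β Λ) (R.μ Λ) (R.M Λ) (R.Q Λ) hb hixs hol).2 u x hu0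
          hxu
        have hx : x ≠ 0 := by
          rintro rfl
          apply hu0
          apply hol.inj
          rw [← hxu]
          simp
        have h3 : qn (fun v => (zx (R.Q Λ) v : ℂ)) (fun v => (zy (R.Q Λ) v : ℂ)) u /
            (ix (R.M Λ ⊓ L) : ℂ) =
            ((nm (Ideal.span {x}) / (nm (R.I c : Ideal (𝓞 K)) * nm 𝔞) / Real.sqrt D : ℝ) : ℂ) := by
          rw [hixL]
          push_cast
          rw [← div_div, h2, hDd, sqrt_Dl, hixs0]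
          have e1 : (nm (Ideal.span {x}) * dk k / (((Ideal.absNorm (R.I c : Ideal (𝓞 K)) *
              Ideal.absNorm f : ℕ) : ℝ) * Real.sqrt |(discr K : ℝ)|)) / nm 𝔞 =
              nm (Ideal.span {x}) / (nm (R.I c : Ideal (𝓞 K)) * nm 𝔞) /
                (Real.sqrt |(discr K : ℝ)| * nm f / dk k) := by
            have e2 : (((Ideal.absNorm (R.I c : Ideal (𝓞 K)) * Ideal.absNorm f : ℕ) : ℝ)) =
                nm (R.I c : Ideal (𝓞 K)) * nm f := by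
              unfold nm
              push_cast
              ring
            rw [e2]
            have := hI0 c
            field_simp
          have e3 : ((Ideal.absNorm 𝔞 : ℕ) : ℂ) = ((nm 𝔞 : ℝ) : ℂ) := by
            unfold nm
            push_cast
            rfl
          rw [e3, ← Complex.ofReal_div, e1]
          push_cast
          rfl
        change ty Φ m (R.α Λ) * (an (sm Φ (R.α Λ) (R.β Λ) m) (fun v => (zx (R.Q Λ) v : ℂ))
          (fun v => (zy (R.Q Λ) v : ℂ)) u *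
          (qn (fun v => (zx (R.Q Λ) v : ℂ)) (fun v => (zy (R.Q Λ) v : ℂ)) u /
            (ix (R.M Λ ⊓ L) : ℂ)) ^ (-s)) = G c x
        rw [h3, Pool.Agent.H21.CM4.cpow_quot _ _ (div_pos (hx0 x hx) (mul_pos (hI0 c) ha0)) hD,
          ← mul_assoc, ← h1, ← hxu, hG]
        ring
      · intro u
        rw [mul_ite, mul_zero]
  choose a₁ ha₁ using step1
  -- the class sums
  have hcls : ∀ c' : ClassGroup (𝓞 K), ∃ A : ℂ, HasSum (fun J : (Ideal (𝓞 K))⁰ =>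
      if ClassGroup.mk0 J = c' then ψ J * (Ideal.absNorm (J : Ideal (𝓞 K)) : ℂ) ^ (-s) else 0)
      A := by
    intro c'
    have h1 := hsum.summable.indicator {J : (Ideal (𝓞 K))⁰ | ClassGroup.mk0 J = c'}
    refine ⟨_, h1.hasSum.congr_fun fun J => ?_⟩
    rw [Set.indicator_apply]
    rfl
  choose A hA using hcls
  have hAa : ∑ c', A c' = a := by
    have h1 : HasSum (fun J : (Ideal (𝓞 K))⁰ => ∑ c', if ClassGroup.mk0 J = c' then
        ψ J * (Ideal.absNorm (J : Ideal (𝓞 K)) : ℂ) ^ (-s) else 0) (∑ c', A c') :=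
      hasSum_sum fun c' _ => hA c'
    refine h1.unique (hsum.congr_fun fun J => ?_)
    rw [Finset.sum_ite_eq]
    simp
  -- step 2: the sum over the lines and the lattices
  have step2 : ∀ c : ClassGroup (𝓞 K), ∑ Λ ∈ Ln f (R.I c : Ideal (𝓞 K)),
      ∑ L ∈ (Ls 𝔞).filter (fun L => Dv 𝔞 L (R.Q Λ)), rh Φ m ψ f (R.I c) Λ * a₁ c Λ L =
      ∑ J ∈ Nr k K 𝔞, un k K * ((D : ℂ) ^ (s / 2) * (ψ J * ψ (R.I c)) *
        A ((c * ClassGroup.mk0 J)⁻¹)) := by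
    intro c
    have h1 : HasSum (fun x : 𝓞 K => ∑ Λ ∈ Ln f (R.I c : Ideal (𝓞 K)),
        ∑ L ∈ (Ls 𝔞).filter (fun L => Dv 𝔞 L (R.Q Λ)), rh Φ m ψ f (R.I c) Λ *
          (if x ∈ us (R.α Λ) (R.β Λ) (R.M Λ ⊓ L) ∧ x ∈ FK k K then G c x else 0))
        (∑ Λ ∈ Ln f (R.I c : Ideal (𝓞 K)),
      ∑ L ∈ (Ls 𝔞).filter (fun L => Dv 𝔞 L (R.Q Λ)), rh Φ m ψ f (R.I c) Λ * a₁ c Λ L) :=
      hasSum_sum fun Λ hΛ => hasSum_sum fun L hL => ((ha₁ c Λ L hΛ hL).2).mul_left _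
    have h2 : HasSum (fun x : 𝓞 K => ∑ J ∈ Nr k K 𝔞,
        if x ∈ ((J * R.I c : (Ideal (𝓞 K))⁰) : Ideal (𝓞 K)) ∧ x ∈ FK k K then
          (if PrTo f (J : Ideal (𝓞 K)) then (D : ℂ) ^ (s / 2) * (ψ (Ideal.span {x}) *
            ((nm (Ideal.span {x}) / (nm (R.I c : Ideal (𝓞 K)) * nm 𝔞) : ℝ) : ℂ) ^ (-s)) else 0)
        else 0)
        (∑ J ∈ Nr k K 𝔞, un k K * ((D : ℂ) ^ (s / 2) * (ψ J * ψ (R.I c)) *
        A ((c * ClassGroup.mk0 J)⁻¹))) := by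
      refine hasSum_sum fun J hJ => ?_
      have hJn : nm (J : Ideal (𝓞 K)) = nm 𝔞 := by
        rw [mem_Nr] at hJ
        unfold nm
        rw [← hJ, Ideal.absNorm_relNorm]
      have hcl : ClassGroup.mk0 (J * R.I c) = c * ClassGroup.mk0 J := by
        rw [map_mul, R.cl, mul_comm]
      refine hTWL k K (J * R.I c) (fun J' => (D : ℂ) ^ (s / 2) * (ψ J * ψ (R.I c)) *
        (ψ J' * (Ideal.absNorm (J' : Ideal (𝓞 K)) : ℂ) ^ (-s))) _ _ ?_ ?_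
      · intro x J' hx hJ'
        have e1 : (J' : Ideal (𝓞 K)) * ((J * R.I c : (Ideal (𝓞 K))⁰) : Ideal (𝓞 K)) =
            (J' : Ideal (𝓞 K)) * ((J : Ideal (𝓞 K)) * (R.I c : Ideal (𝓞 K))) := rfl
        rw [e1] at hJ'
        have e2 : nm (Ideal.span {x}) = nm (J' : Ideal (𝓞 K)) * (nm 𝔞 *
            nm (R.I c : Ideal (𝓞 K))) := by
          rw [← hJn, hJ']
          unfold nm
          rw [map_mul, map_mul]
          push_cast
          rfl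
        have e3 : nm (Ideal.span {x}) / (nm (R.I c : Ideal (𝓞 K)) * nm 𝔞) =
            nm (J' : Ideal (𝓞 K)) := by
          rw [e2]
          have := hI0 c
          field_simp
        have e4 : ((nm (J' : Ideal (𝓞 K)) : ℝ) : ℂ) =
            (Ideal.absNorm (J' : Ideal (𝓞 K)) : ℂ) := by
          unfold nm
          push_cast
          rfl
        change (if PrTo f (J : Ideal (𝓞 K)) then (D : ℂ) ^ (s / 2) * (ψ (Ideal.span {x}) *
            ((nm (Ideal.span {x}) / (nm (R.I c : Ideal (𝓞 K)) * nm 𝔞) : ℝ) : ℂ) ^ (-s)) else 0) =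
          (D : ℂ) ^ (s / 2) * (ψ J * ψ (R.I c)) *
        (ψ J' * (Ideal.absNorm (J' : Ideal (𝓞 K)) : ℂ) ^ (-s))
        rw [e3, e4, hJ', hψ.mul, hψ.mul]
        split_ifs with h5
        · ring
        · rw [hψ.zer _ h5]
          ring
      · have h3 := (hA ((c * ClassGroup.mk0 J)⁻¹)).mul_left
          ((D : ℂ) ^ (s / 2) * (ψ J * ψ (R.I c)))
        refine h3.congr_fun fun J' => ?_
        rw [hcl]
        split_ifs
        · rfl
        · rw [mul_zero]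
    have h3 : (fun x : 𝓞 K => ∑ Λ ∈ Ln f (R.I c : Ideal (𝓞 K)),
        ∑ L ∈ (Ls 𝔞).filter (fun L => Dv 𝔞 L (R.Q Λ)), rh Φ m ψ f (R.I c) Λ *
          (if x ∈ us (R.α Λ) (R.β Λ) (R.M Λ ⊓ L) ∧ x ∈ FK k K then G c x else 0)) =
        fun x : 𝓞 K => ∑ J ∈ Nr k K 𝔞,
        if x ∈ ((J * R.I c : (Ideal (𝓞 K))⁰) : Ideal (𝓞 K)) ∧ x ∈ FK k K then
          (if PrTo f (J : Ideal (𝓞 K)) then (D : ℂ) ^ (s / 2) * (ψ (Ideal.span {x}) *
            ((nm (Ideal.span {x}) / (nm (R.I c : Ideal (𝓞 K)) * nm 𝔞) : ℝ) : ℂ) ^ (-s)) else 0)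
        else 0 := by
      funext x
      by_cases hxF : x ∈ FK k K
      swap
      · rw [Finset.sum_eq_zero, Finset.sum_eq_zero]
        · intro J _
          rw [if_neg fun h => hxF h.2]
        · intro Λ _
          refine Finset.sum_eq_zero fun L _ => ?_
          rw [if_neg fun h => hxF h.2, mul_zero]
      have hx : x ≠ 0 := hxF.1
      by_cases hxI : x ∈ (R.I c : Ideal (𝓞 K))
      swap
      · rw [Finset.sum_eq_zero, Finset.sum_eq_zero]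
        · intro J _
          rw [if_neg fun h => hxI (mulI_mem h.1)]
        · intro Λ hΛ
          refine Finset.sum_eq_zero fun L _ => ?_
          rw [if_neg, mul_zero]
          rintro ⟨⟨u, hu, hxu⟩, -⟩
          have hol := R.ol c Λ hΛ
          have hu' : u ∈ R.M Λ := hu.1
          rw [hol.lat] at hu'
          obtain ⟨x', hx', hxu'⟩ := hu'
          have e : x = x' := RingOfIntegers.ext (hxu.trans hxu'.symm)
          apply hxI
          rw [e]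
          exact (hLNB k K f (R.I c) hψ.fne (R.pr c)).2.2 Λ hΛ x' hx'
      have h4 := hCVV k K Φ f m ψ b B y R hΦ hψ hb c 𝔞 ha hasq hab x hxI hx
      have h5 : ∑ Λ ∈ Ln f (R.I c : Ideal (𝓞 K)),
          ∑ L ∈ (Ls 𝔞).filter (fun L => Dv 𝔞 L (R.Q Λ)), rh Φ m ψ f (R.I c) Λ *
          (if x ∈ us (R.α Λ) (R.β Λ) (R.M Λ ⊓ L) ∧ x ∈ FK k K then G c x else 0) =
          G c x * ∑ Λ ∈ Ln f (R.I c : Ideal (𝓞 K)),
          ∑ L ∈ (Ls 𝔞).filter (fun L => Dv 𝔞 L (R.Q Λ)),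
          (if x ∈ us (R.α Λ) (R.β Λ) (R.M Λ ⊓ L) then rh Φ m ψ f (R.I c) Λ else 0) := by
        rw [Finset.mul_sum]
        refine Finset.sum_congr rfl fun Λ _ => ?_
        rw [Finset.mul_sum]
        refine Finset.sum_congr rfl fun L _ => ?_
        by_cases h6 : x ∈ us (R.α Λ) (R.β Λ) (R.M Λ ⊓ L)
        · rw [if_pos ⟨h6, hxF⟩, if_pos h6, mul_comm]
        · rw [if_neg fun h => h6 h.1, if_neg h6, mul_zero, mul_zero]
      rw [h5, h4, Finset.mul_sum]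
      refine Finset.sum_congr rfl fun J _ => ?_
      have e0 : ((J * R.I c : (Ideal (𝓞 K))⁰) : Ideal (𝓞 K)) =
          (J : Ideal (𝓞 K)) * (R.I c : Ideal (𝓞 K)) := rfl
      rw [e0]
      by_cases h6 : x ∈ (J : Ideal (𝓞 K)) * (R.I c : Ideal (𝓞 K))
      swap
      · rw [if_neg fun h => h6 h.2.1, if_neg fun h => h6 h.1, mul_zero]
      rw [if_pos (⟨h6, hxF⟩ : _ ∧ x ∈ FK k K)]
      by_cases h7 : PrTo f (J : Ideal (𝓞 K))
      swap
      · rw [if_neg fun h => h7 h.1, if_neg h7, mul_zero]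
      rw [if_pos h7]
      by_cases h8 : PrTo f (Ideal.span {x})
      swap
      · rw [if_neg fun h => h8 h.2.2, mul_zero, hψ.zer _ h8]
        ring
      rw [if_pos ⟨h7, h6, h8⟩, (hrho c).2.2.1 x hxI h8, hG]
      have hx' : (x : K) ≠ 0 := by
        rw [Ne, RingOfIntegers.coe_eq_zero_iff]
        exact hx
      have h9 : ty Φ m (x : K) ≠ 0 := by
        intro h
        have h10 := htyn _ hx'
        rw [h, norm_zero] at h10
        exact zero_ne_one h10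
      field_simp
    rw [h3] at h1
    exact h1.unique h2
  -- step 3
  have hψI : ∀ c, ψ (R.I c : Ideal (𝓞 K)) ≠ 0 := by
    intro c h
    have h1 := hψ.nrm _ (R.pr c)
    rw [h, norm_zero] at h1
    exact zero_ne_one h1
  have step3 : ∀ c : ClassGroup (𝓞 K), (ψ (R.I c))⁻¹ * ∑ Λ ∈ Ln f (R.I c : Ideal (𝓞 K)),
          rh Φ m ψ f (R.I c) Λ * ty Φ m (R.α Λ) *
          ∑ L ∈ (Ls 𝔞).filter (fun L => Dv 𝔞 L (R.Q Λ)),
            Zm s (sm Φ (R.α Λ) (R.β Λ) m) (R.M Λ ⊓ L) (zx (R.Q Λ)) (zy (R.Q Λ)) =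
      ∑ J ∈ Nr k K 𝔞, un k K * (GM m s * (D : ℂ) ^ (s / 2) * ψ J *
        A ((c * ClassGroup.mk0 J)⁻¹)) := by
    intro c
    have h1 : ∑ Λ ∈ Ln f (R.I c : Ideal (𝓞 K)),
          rh Φ m ψ f (R.I c) Λ * ty Φ m (R.α Λ) *
          ∑ L ∈ (Ls 𝔞).filter (fun L => Dv 𝔞 L (R.Q Λ)),
            Zm s (sm Φ (R.α Λ) (R.β Λ) m) (R.M Λ ⊓ L) (zx (R.Q Λ)) (zy (R.Q Λ)) =
        GM m s * ∑ Λ ∈ Ln f (R.I c : Ideal (𝓞 K)),
          ∑ L ∈ (Ls 𝔞).filter (fun L => Dv 𝔞 L (R.Q Λ)), rh Φ m ψ f (R.I c) Λ * a₁ c Λ L := by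
      rw [Finset.mul_sum]
      refine Finset.sum_congr rfl fun Λ hΛ => ?_
      rw [Finset.mul_sum, Finset.mul_sum]
      refine Finset.sum_congr rfl fun L hL => ?_
      rw [mul_assoc, (ha₁ c Λ L hΛ hL).1]
      ring
    rw [h1, step2, Finset.mul_sum, Finset.mul_sum]
    refine Finset.sum_congr rfl fun J _ => ?_
    have := hψI c
    field_simp
  rw [lc_eq, Finset.sum_congr rfl fun c _ => step3 c, Finset.sum_comm, Finset.mul_sum,
    Finset.sum_mul]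
  refine Finset.sum_congr rfl fun J _ => ?_
  have h1 : ∑ c, A ((c * ClassGroup.mk0 J)⁻¹) = a := by
    rw [← hAa]
    exact Fintype.sum_equiv ((Equiv.mulRight (ClassGroup.mk0 J)).trans (Equiv.inv _)) _ _
      fun c => rfl
  rw [← Finset.mul_sum, ← Finset.mul_sum, h1]
  field_simp

end Pool.Agent.H21.CMC
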